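import Pool.Agent.Helper75.KM.StmtsC

/-!
# MP_b1773a_an: from the entropy inequality to sets of lines
-/

set_option autoImplicit false

namespace Pool.Agent.Helper75.KM

open Pool.Agent.Helper8.Kak Pool.Agent.Helper89.KakGeo

section

variable {L : Type} [Fintype L] {A : Type} (Y : L → Finset A)

/-- pairs (line, height in the shading) -/
abbrev disc_Om : Type := Σ l : L, {t : A // t ∈ Y l}

/-- the uniform probability: first the line, then the height -/
noncomputable def disc_p (ω : disc_Om Y) : ℝ :=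
  ((Fintype.card L : ℝ))⁻¹ * (((Y ω.1).card : ℝ))⁻¹

theorem disc_sum (hY : ∀ l, (Y l).Nonempty) (f : L → ℝ) :
    ∑ ω : disc_Om Y, disc_p Y ω * f ω.1 = (Fintype.card L : ℝ)⁻¹ * ∑ l, f l := by
  rw [Fintype.sum_sigma, Finset.mul_sum]
  refine Finset.sum_congr rfl fun l _ => ?_
  have hc : ((Y l).card : ℝ) ≠ 0 := by
    have := (hY l).card_pos
    positivity
  simp only [disc_p]
  rw [Finset.sum_const, Finset.card_univ, Fintype.card_coe, nsmul_eq_mul]
  field_simp

theorem disc_prob [Nonempty L] (hY : ∀ l, (Y l).Nonempty) : IsProb (disc_p Y) := by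
  refine ⟨fun ω => ?_, ?_⟩
  · unfold disc_p
    positivity
  · have h := disc_sum Y hY (fun _ => 1)
    simp only [mul_one, Finset.sum_const, Finset.card_univ, nsmul_eq_mul] at h
    rw [h, inv_mul_cancel₀]
    have := Fintype.card_pos (α := L)
    positivity

theorem disc_cls1 (hY : ∀ l, (Y l).Nonempty) (ω : disc_Om Y) :
    cls (disc_p Y) (⊤ ⊓ Setoid.ker (fun ω : disc_Om Y => ω.1)) ω = (Fintype.card L : ℝ)⁻¹ := by
  classical
  have h := disc_sum Y hY (fun l => if ω.1 = l then 1 else 0)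
  rw [Finset.sum_ite_eq, if_pos (Finset.mem_univ _), mul_one] at h
  rw [← h]
  unfold cls
  refine Finset.sum_congr rfl fun ω' _ => ?_
  by_cases h1 : ω.1 = ω'.1
  · rw [if_pos, if_pos h1, mul_one]
    exact ⟨trivial, h1⟩
  · rw [if_neg, if_neg h1, mul_zero]
    rintro ⟨-, h2⟩
    exact h1 h2

theorem disc_cls2 (ω : disc_Om Y) :
    cls (disc_p Y) (⊤ ⊓ Setoid.ker (fun ω : disc_Om Y => ω.1) ⊓
      Setoid.ker (fun ω : disc_Om Y => (ω.2 : A))) ω = disc_p Y ω := by
  classical
  unfold cls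
  rw [Finset.sum_eq_single ω]
  · rw [if_pos]
    exact ⟨⟨trivial, rfl⟩, rfl⟩
  · intro ω' _ hne
    rw [if_neg]
    rintro ⟨⟨-, h2⟩, h3⟩
    apply hne
    obtain ⟨l, t, ht⟩ := ω
    obtain ⟨l', t', ht'⟩ := ω'
    have e2 : l = l' := h2
    have e3 : t = t' := h3
    subst e2
    subst e3
    rfl
  · intro h
    exact absurd (Finset.mem_univ _) h

theorem disc_ent1 [Nonempty L] (hY : ∀ l, (Y l).Nonempty) :
    Ent (disc_p Y) (⊤ ⊓ Setoid.ker (fun ω : disc_Om Y => ω.1)) = Real.log (Fintype.card L) := by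
  unfold Ent
  simp only [disc_cls1 Y hY]
  rw [← Finset.sum_mul, (disc_prob Y hY).2, one_mul, Real.log_inv, neg_neg]

theorem disc_ent2 [Nonempty L] (hY : ∀ l, (Y l).Nonempty) :
    Ent (disc_p Y) (⊤ ⊓ Setoid.ker (fun ω : disc_Om Y => ω.1) ⊓
      Setoid.ker (fun ω : disc_Om Y => (ω.2 : A))) =
    Real.log (Fintype.card L) + (Fintype.card L : ℝ)⁻¹ * ∑ l, Real.log ((Y l).card) := by
  unfold Ent
  simp only [disc_cls2 Y]
  rw [← disc_sum Y hY (fun l => Real.log ((Y l).card))]
  have hL : (Fintype.card L : ℝ) ≠ 0 := by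
    have := Fintype.card_pos (α := L)
    positivity
  have h1 : ∀ ω : disc_Om Y, disc_p Y ω * Real.log (disc_p Y ω) =
      -(disc_p Y ω * Real.log (Fintype.card L)) - disc_p Y ω * Real.log ((Y ω.1).card) := by
    intro ω
    have hc : ((Y ω.1).card : ℝ) ≠ 0 := by
      have := (hY ω.1).card_pos
      positivity
    have : Real.log (disc_p Y ω) = -Real.log (Fintype.card L) - Real.log ((Y ω.1).card) := by
      unfold disc_p
      rw [Real.log_mul (inv_ne_zero hL) (inv_ne_zero hc), Real.log_inv, Real.log_inv]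
      ring
    rw [this]
    ring
  simp only [h1]
  rw [Finset.sum_sub_distrib, Finset.sum_neg_distrib, ← Finset.sum_mul, (disc_prob Y hY).2]
  ring

end

theorem st_DISC : ST_DISC := by
  classical
  intro m α hα hMX ε hε
  obtain ⟨C0, hC0⟩ := hMX ε hε
  refine ⟨Real.exp C0, Real.exp_pos _, ?_⟩
  intro N L _ x v hD lam hl0 hl1 Y E hY hE
  rcases isEmpty_or_nonempty L with hL | hL
  · rw [Fintype.card_eq_zero, Nat.cast_zero]
    positivity
  have hYne : ∀ l, (Y l).Nonempty := by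
    intro l
    rw [← Finset.card_pos]
    have h1 := hY l
    have h2 : 0 < lam * 2 ^ N := by positivity
    have h3 : (0 : ℝ) < ((Y l).card : ℝ) := lt_of_lt_of_le h2 h1
    exact_mod_cast h3
  obtain ⟨l0⟩ := id hL
  obtain ⟨t0, ht0⟩ := hYne l0
  have hEpos : 0 < (E.card : ℝ) := by
    have : 0 < E.card := Finset.card_pos.mpr ⟨_, hE l0 t0 ht0⟩
    exact_mod_cast this
  have hLpos : 0 < (Fintype.card L : ℝ) := by
    have := Fintype.card_pos (α := L)
    exact_mod_cast this
  set p := disc_p Y with hp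
  have hprob : IsProb p := disc_prob Y hYne
  have hmain := hC0 N L x v hD (disc_Om Y) p hprob ⊤ (fun ω => ω.1) (fun ω => (ω.2 : Fin (2 ^ N)))
  -- the height
  have htt : tt p ⊤ (fun ω : disc_Om Y => ω.1) (fun ω => (ω.2 : Fin (2 ^ N))) =
      (Fintype.card L : ℝ)⁻¹ * ∑ l, Real.log ((Y l).card) := by
    unfold tt
    rw [hp, disc_ent1 Y hYne, disc_ent2 Y hYne]
    ring
  have htl : Real.log lam + N * Real.log 2 ≤
      tt p ⊤ (fun ω : disc_Om Y => ω.1) (fun ω => (ω.2 : Fin (2 ^ N))) := by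
    rw [htt]
    have h1 : ∀ l ∈ (Finset.univ : Finset L), Real.log lam + N * Real.log 2 ≤
        Real.log ((Y l).card) := by
      intro l _
      have e : Real.log lam + N * Real.log 2 = Real.log (lam * 2 ^ N) := by
        rw [Real.log_mul hl0.ne' (by positivity), Real.log_pow]
      rw [e]
      exact Real.log_le_log (by positivity) (hY l)
    have h2 := Finset.sum_le_sum h1
    rw [Finset.sum_const, Finset.card_univ, nsmul_eq_mul] at h2
    calc Real.log lam + N * Real.log 2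
        = (Fintype.card L : ℝ)⁻¹ * ((Fintype.card L : ℝ) * (Real.log lam + N * Real.log 2)) := by
          rw [inv_mul_cancel_left₀ hLpos.ne']
      _ ≤ _ := mul_le_mul_of_nonneg_left h2 (inv_nonneg.mpr hLpos.le)
  have haa : aa p ⊤ (fun ω : disc_Om Y => ω.1) = Real.log (Fintype.card L) := by
    unfold aa
    rw [Ent_top hprob, hp, disc_ent1 Y hYne, sub_zero]
  -- the points
  have hEnt : Ent p (⊤ ⊓ Setoid.ker (fun ω : disc_Om Y => (ω.2 : Fin (2 ^ N))) ⊓
      Setoid.ker (fun ω : disc_Om Y => ptn N x v ω.1 (ω.2 : Fin (2 ^ N)))) ≤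
      Real.log (E.card) := by
    let X : disc_Om Y → (Fin m → ℤ) × Fin (2 ^ N) :=
      fun ω => (ptn N x v ω.1 (ω.2 : Fin (2 ^ N)), (ω.2 : Fin (2 ^ N)))
    have hg := gibbs hprob ⊤ X (fun _ a => if a ∈ E then (E.card : ℝ)⁻¹ else 0) ?_ ?_ ?_ ?_
    · rw [Ent_top hprob, sub_zero] at hg
      have h1 : Ent p (⊤ ⊓ Setoid.ker (fun ω : disc_Om Y => (ω.2 : Fin (2 ^ N))) ⊓
          Setoid.ker (fun ω : disc_Om Y => ptn N x v ω.1 (ω.2 : Fin (2 ^ N)))) ≤
          Ent p (Setoid.ker X ⊓ ⊤) := by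
        refine Ent_mono hprob ?_
        rintro ω ω' ⟨h, -⟩
        have h' : X ω = X ω' := h
        exact ⟨⟨trivial, congrArg Prod.snd h'⟩, congrArg Prod.fst h'⟩
      refine h1.trans (hg.trans ?_)
      have h2 : ∀ ω : disc_Om Y, p ω * (-Real.log (if X ω ∈ E then (E.card : ℝ)⁻¹ else 0)) =
          p ω * Real.log (E.card) := by
        intro ω
        have : X ω ∈ E := hE ω.1 ω.2 ω.2.2
        rw [if_pos this, Real.log_inv, neg_neg]
      rw [Finset.sum_congr rfl fun ω _ => h2 ω, ← Finset.sum_mul, hprob.2, one_mul]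
    · intro _ a
      show (0 : ℝ) ≤ if a ∈ E then (E.card : ℝ)⁻¹ else 0
      split_ifs
      · positivity
      · exact le_rfl
    · intro _ _ _ _ _
      rfl
    · intro _ F
      rw [← Finset.sum_filter, Finset.sum_const, nsmul_eq_mul]
      have h3 : ((F.filter (· ∈ E)).card : ℝ) ≤ (E.card : ℝ) := by
        exact_mod_cast Finset.card_le_card fun a ha => (Finset.mem_filter.mp ha).2
      calc ((F.filter (· ∈ E)).card : ℝ) * (E.card : ℝ)⁻¹ ≤ (E.card : ℝ) * (E.card : ℝ)⁻¹ :=
            mul_le_mul_of_nonneg_right h3 (inv_nonneg.mpr hEpos.le)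
        _ = 1 := mul_inv_cancel₀ hEpos.ne'
    · intro ω _
      have : X ω ∈ E := hE ω.1 ω.2 ω.2.2
      show (0 : ℝ) < if X ω ∈ E then (E.card : ℝ)⁻¹ else 0
      rw [if_pos this]
      exact inv_pos.mpr hEpos
  have hgg : gg p ⊤ (fun ω : disc_Om Y => ω.1) (fun ω => (ω.2 : Fin (2 ^ N)))
      (fun ω => ptn N x v ω.1 (ω.2 : Fin (2 ^ N))) ≤ Real.log (E.card) -
      tt p ⊤ (fun ω : disc_Om Y => ω.1) (fun ω => (ω.2 : Fin (2 ^ N))) := by
    unfold gg
    rw [Ent_top hprob]
    linarith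
  rw [haa] at hmain
  set τ := tt p ⊤ (fun ω : disc_Om Y => ω.1) (fun ω => (ω.2 : Fin (2 ^ N))) with hτ
  have hm0 : (0 : ℝ) ≤ m := Nat.cast_nonneg _
  have hα0 : 0 < α := by linarith
  have hfin : Real.log (Fintype.card L) ≤ α * (Real.log (E.card) - N * Real.log 2) -
      (m + α) * Real.log lam + ε * N + C0 := by
    have h1 := mul_le_mul_of_nonneg_left hgg hα0.le
    have h2 := mul_le_mul_of_nonneg_left htl hα0.le
    have h3 := mul_le_mul_of_nonneg_left htl hm0
    linarith
  have hratio : 0 < (E.card : ℝ) / 2 ^ N := by positivity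
  have e1 : Real.log ((E.card : ℝ) / 2 ^ N) = Real.log (E.card) - N * Real.log 2 := by
    rw [Real.log_div hEpos.ne' (by positivity), Real.log_pow]
  calc (Fintype.card L : ℝ) = Real.exp (Real.log (Fintype.card L)) := (Real.exp_log hLpos).symm
    _ ≤ Real.exp (C0 + ε * N + Real.log ((E.card : ℝ) / 2 ^ N) * α +
        Real.log lam * (-((m : ℝ) + α))) := by
        refine Real.exp_le_exp.mpr ?_
        rw [e1]
        linarith
    _ = _ := by
        rw [Real.exp_add, Real.exp_add, Real.exp_add, ← Real.rpow_def_of_pos hratio,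
          ← Real.rpow_def_of_pos hl0]

end Pool.Agent.Helper75.KM
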